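import Pool.Agent.Results.MP_9056e9_nt.FiniteDimensionalSpaces
import Pool.Agent.Results.MP_9056e9_nt.DigitsOfPowersOfE
import Pool.Agent.Y854.GM.Win
import Pool.Agent.H223.NP.Gen

/-!
# The powers of `e`: all exponents of windows

Let `v ≥ 1` be a sequence with exponent of convergence at most `τ` (for `v_k = (k + 1) ^ c` this is `1 / c`, for
`v_k = c ^ k` it is `0`) and `θ < 1`. The starting results bound the number of exceptional exponents `n ≤ N` by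
`N ^ (1 - κ)`; here we show that for almost all `α` there are **no** exceptional exponents in the windows of length
`v_k ^ θ` around `α v_k`, if `τ + θ < κ`: for **all** integers `n` with `|n - α v_k| ≤ v_k ^ θ`, `k` large,

* (linear forms) `|a + b ξ e^n + c_1 t_1 + … + c_r t_r| ≥ e^(-δ n)` for all integers `a`, `b ≠ 0`, `c_i` with
  `|b|, |c_i| ≤ e^(κ n)`, `κ = (δ / (r + 2))² / 5000`; in particular the distance of `b e^n - θ` from the nearest integer is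
  at least `e^(-δ n)` for every fixed real `θ`;
* (digits) every block of at least `δ n` consecutive digits of `a e^n + P(n)` in base `b`, between the leading digit and the
  digit at the place `n / δ` after the point, has linear complexity at least `c` times its length.

The exceptional `α` form a set of Hausdorff dimension at most `(1 - κ + τ) / (1 - θ)`, for countably many choices of `ξ`,
`t` (or `a`, `P`) simultaneously.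
-/

set_option autoImplicit false

open Finset

namespace Pool.Agent.Results.MP_9056e9_nt.AllExponentsInWindows

open DigitsOfPowersOfE (digit complexity)

/-- the exponent of convergence of the sequence `v` is at most `τ` -/
def ExpLe (v : ℕ → ℝ) (τ : ℝ) : Prop := ∀ t : ℝ, τ < t → Summable (fun k : ℕ => (v k) ^ (-t))

/-- There are integers `a, b, c_1, …, c_r` with `b ≠ 0`, `|b|, |c_i| ≤ e^(κ n)`, `κ = (δ / (r + 2))² / 5000`, and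
`|a + b ξ e^n + c_1 t_1 + … + c_r t_r| < e^(-δ n)`. -/
def SmallForm {r : ℕ} (t : Fin r → ℝ) (ξ δ : ℝ) (n : ℕ) : Prop :=
  ∃ (a b : ℤ) (c : Fin r → ℤ), b ≠ 0 ∧ |(b : ℝ)| ≤ Real.exp ((δ / (r + 2)) ^ 2 / 5000 * n) ∧
    (∀ i, |(c i : ℝ)| ≤ Real.exp ((δ / (r + 2)) ^ 2 / 5000 * n)) ∧
    |a + b * (ξ * Real.exp n) + ∑ i, c i * t i| < Real.exp (-(δ * n))

/-- A block of `L ≥ δ n` consecutive digits of `a e^n + P(n)` in base `b`, between the leading digit and the digit at the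
place `n / δ` after the point, has linear complexity at most `δ ^ 2 / (200000 · 2 ^ D) · L`. -/
def SimpleBlock (b D : ℕ) (δ a : ℝ) (P : Polynomial ℝ) (n : ℕ) : Prop :=
  ∃ (u : ℤ) (L : ℕ), 1 ≤ |a| * Real.exp n * (b : ℝ) ^ u ∧ δ * n ≤ L ∧ (u : ℝ) + L ≤ n / δ ∧
    (complexity b (a * Real.exp n + P.eval (n : ℝ)) u L : ℝ) ≤ δ ^ 2 / (200000 * 2 ^ D) * L

open Classical in
lemma count_form {r : ℕ} (t : Fin r → ℝ) (ξ δ : ℝ) (hδ : 0 < δ) (hδ1 : δ ≤ 1) (hξ : ξ ≠ 0) (ε : ℝ) (hε : 0 < ε) :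
    ∃ C : ℝ, ∀ X : ℕ, 1 ≤ X → (((Ioc 0 X).filter (fun n => n ∈ {n : ℕ | SmallForm t ξ δ n})).card : ℝ) ≤
      C * (X : ℝ) ^ (1 - (δ / (r + 2)) ^ 2 / 5000 + ε) := by
  obtain ⟨A, hA, h⟩ := FiniteDimensionalSpaces.result
  refine ⟨A * ((r + 2) ^ 3 / δ) * (1 + |Real.log (|ξ|)|), fun X hX => ?_⟩
  have hX1 : (1 : ℝ) ≤ X := by exact_mod_cast hX
  have h1 := h r t δ hδ hδ1 X hX ξ hξ
  have h2 : (((Ioc 0 X).filter (fun n => n ∈ {n : ℕ | SmallForm t ξ δ n}) : Finset ℕ) : Set ℕ) =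
      {n : ℕ | 1 ≤ n ∧ n ≤ X ∧ ∃ (a b : ℤ) (c : Fin r → ℤ), b ≠ 0 ∧
      |(b : ℝ)| ≤ Real.exp ((δ / (r + 2)) ^ 2 / 5000 * n) ∧
      (∀ i, |(c i : ℝ)| ≤ Real.exp ((δ / (r + 2)) ^ 2 / 5000 * n)) ∧
      |a + b * (ξ * Real.exp n) + ∑ i, c i * t i| < Real.exp (-(δ * n))} := by
    ext n
    simp only [Finset.coe_filter, Finset.mem_Ioc, Set.mem_setOf_eq, SmallForm, Nat.succ_le_iff, and_assoc]
  rw [← h2, Set.ncard_coe_finset] at h1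
  have h3 : (δ / (r + 2)) ^ 2 / 5000 ≤ 1 := by
    have h4 : δ / (r + 2) ≤ 1 := by
      rw [div_le_one (by positivity)]
      have : (0 : ℝ) ≤ r := Nat.cast_nonneg r
      linarith
    have h5 : 0 ≤ δ / (r + 2) := by positivity
    nlinarith
  have h6 : (X : ℝ) ^ (1 - (δ / (r + 2)) ^ 2 / 5000) ≤ (X : ℝ) ^ (1 - (δ / (r + 2)) ^ 2 / 5000 + ε) :=
    Real.rpow_le_rpow_of_exponent_le hX1 (by linarith)
  have h7 : (1 : ℝ) ≤ (X : ℝ) ^ (1 - (δ / (r + 2)) ^ 2 / 5000 + ε) :=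
    Real.one_le_rpow hX1 (by linarith)
  have h8 : 0 ≤ |Real.log (|ξ|)| := abs_nonneg _
  refine h1.trans ?_
  rw [mul_assoc (A * ((r + 2) ^ 3 / δ))]
  apply mul_le_mul_of_nonneg_left _ (by positivity)
  nlinarith

lemma count_block (b D : ℕ) (hb : 2 ≤ b) (δ a : ℝ) (P : Polynomial ℝ) (hδ : 0 < δ) (hδ1 : δ ≤ 1) (ha : a ≠ 0)
    (hP : P.natDegree ≤ D) :
    ∃ C : ℝ, ∀ X : ℝ, 1 ≤ X → {n : ℕ | n ∈ {n : ℕ | 1 ≤ n ∧ SimpleBlock b D δ a P n} ∧ (n : ℝ) ≤ X}.Finite ∧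
      ({n : ℕ | n ∈ {n : ℕ | 1 ≤ n ∧ SimpleBlock b D δ a P n} ∧ (n : ℝ) ≤ X}.ncard : ℝ) ≤
        C * X ^ (1 - δ ^ 4 / (209715200 * 2 ^ D)) := by
  classical
  obtain ⟨C, hC, h⟩ := DigitsOfPowersOfE.result D b hb (δ / 2) (by positivity) (by linarith)
  have h2D : (1 : ℝ) ≤ 2 ^ D := one_le_pow₀ (by norm_num)
  have e1 : (δ / 2) ^ 4 / (13107200 * 2 ^ D) = δ ^ 4 / (209715200 * 2 ^ D) := by
    field_simp
    norm_num
  have hs : 0 < 1 - δ ^ 4 / (209715200 * 2 ^ D) := by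
    have h1 : δ ^ 4 ≤ 1 := pow_le_one₀ hδ.le hδ1
    have h2 : δ ^ 4 / (209715200 * 2 ^ D) ≤ 1 / 209715200 := by
      rw [div_le_div_iff₀ (by positivity) (by norm_num)]
      nlinarith
    linarith
  refine Pool.Agent.H223.NP.count_dyadic (C := 2 * C) (X₀ := |Real.log (|a|)| + 1) (fun n : ℕ => (n : ℝ))
    {n : ℕ | 1 ≤ n ∧ SimpleBlock b D δ a P n}
    (fun T => {n : ℕ | |Real.log (|a|)| ≤ (⌊T⌋₊ : ℝ) ∧ 1 ≤ n ∧ n ≤ ⌊T⌋₊ ∧ ∃ (u : ℤ) (L : ℕ),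
        1 ≤ |a| * Real.exp n * (b : ℝ) ^ u ∧ δ / 2 * (⌊T⌋₊ : ℝ) ≤ L ∧ (u : ℝ) + L ≤ (⌊T⌋₊ : ℝ) / (δ / 2) ∧
        (complexity b (a * Real.exp n + P.eval (n : ℝ)) u L : ℝ) ≤
          (δ / 2) ^ 2 / (50000 * 2 ^ D) * L}) hs ?_ ?_ ?_
  · rintro n ⟨hn1, u, L, h1, h2, h3, h4⟩ T hT1 hT2 hT3
    have hT0 : 0 ≤ T := by linarith [abs_nonneg (Real.log (|a|))]
    have hfl : T < (⌊T⌋₊ : ℝ) + 1 := Nat.lt_floor_add_one T
    have hfl2 : (⌊T⌋₊ : ℝ) ≤ T := Nat.floor_le hT0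
    have hnT : n ≤ ⌊T⌋₊ := Nat.le_floor hT2
    have hnT' : (n : ℝ) ≤ (⌊T⌋₊ : ℝ) := by exact_mod_cast hnT
    refine ⟨by linarith, hn1, hnT, u, L, h1, ?_, ?_, ?_⟩
    · nlinarith
    · refine h3.trans ?_
      rw [div_le_div_iff₀ hδ (by positivity)]
      have : 0 ≤ (⌊T⌋₊ : ℝ) := Nat.cast_nonneg _
      nlinarith
    · refine h4.trans (le_of_eq ?_)
      field_simp
      norm_num
      ring
  · intro X
    refine (Set.finite_Iic ⌊X⌋₊).subset ?_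
    rintro n ⟨-, hn⟩
    exact Nat.le_floor hn
  · intro T hT
    have hN : 1 ≤ ⌊T⌋₊ := (Nat.one_le_floor_iff T).2 hT
    have hfin : {n : ℕ | |Real.log (|a|)| ≤ (⌊T⌋₊ : ℝ) ∧ 1 ≤ n ∧ n ≤ ⌊T⌋₊ ∧ ∃ (u : ℤ) (L : ℕ),
        1 ≤ |a| * Real.exp n * (b : ℝ) ^ u ∧ δ / 2 * (⌊T⌋₊ : ℝ) ≤ L ∧ (u : ℝ) + L ≤ (⌊T⌋₊ : ℝ) / (δ / 2) ∧
        (complexity b (a * Real.exp n + P.eval (n : ℝ)) u L : ℝ) ≤
          (δ / 2) ^ 2 / (50000 * 2 ^ D) * L}.Finite :=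
      (Set.finite_Iic ⌊T⌋₊).subset fun n hn => hn.2.2.1
    refine ⟨hfin, ?_⟩
    have hT2 : ((⌊T⌋₊ : ℕ) : ℝ) ^ (1 - δ ^ 4 / (209715200 * 2 ^ D)) ≤ T ^ (1 - δ ^ 4 / (209715200 * 2 ^ D)) :=
      Real.rpow_le_rpow (Nat.cast_nonneg _) (Nat.floor_le (by linarith)) hs.le
    have hT3 : 0 ≤ T ^ (1 - δ ^ 4 / (209715200 * 2 ^ D)) := Real.rpow_nonneg (by linarith) _
    by_cases hlog : |Real.log (|a|)| ≤ (⌊T⌋₊ : ℝ)
    · have ha0 : 0 < |a| := abs_pos.2 ha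
      have hl := abs_le.1 hlog
      have h1 := h a P ⌊T⌋₊ hN (by
        rw [← Real.le_log_iff_exp_le ha0]
        exact hl.1) (by
        rw [← Real.log_le_iff_le_exp ha0]
        exact hl.2) hP
      rw [e1] at h1
      refine le_trans ?_ (h1.trans ?_)
      · have hsub : {n : ℕ | |Real.log (|a|)| ≤ (⌊T⌋₊ : ℝ) ∧ 1 ≤ n ∧ n ≤ ⌊T⌋₊ ∧ ∃ (u : ℤ) (L : ℕ),
            1 ≤ |a| * Real.exp n * (b : ℝ) ^ u ∧ δ / 2 * (⌊T⌋₊ : ℝ) ≤ L ∧ (u : ℝ) + L ≤ (⌊T⌋₊ : ℝ) / (δ / 2) ∧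
            (complexity b (a * Real.exp n + P.eval (n : ℝ)) u L : ℝ) ≤
              (δ / 2) ^ 2 / (50000 * 2 ^ D) * L} ⊆ {n : ℕ | 1 ≤ n ∧ n ≤ ⌊T⌋₊ ∧ ∃ (u : ℤ) (L : ℕ),
            1 ≤ |a| * Real.exp n * (b : ℝ) ^ u ∧ δ / 2 * (⌊T⌋₊ : ℝ) ≤ L ∧ (u : ℝ) + L ≤ (⌊T⌋₊ : ℝ) / (δ / 2) ∧
            (complexity b (a * Real.exp n + P.eval (n : ℝ)) u L : ℝ) ≤
              (δ / 2) ^ 2 / (50000 * 2 ^ D) * L} := fun n hn => hn.2
        have h3 := Set.ncard_le_ncard hsub ((Set.finite_Iic ⌊T⌋₊).subset fun n hn => hn.2.1)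
        exact_mod_cast h3
      · nlinarith
    · have hemp : {n : ℕ | |Real.log (|a|)| ≤ (⌊T⌋₊ : ℝ) ∧ 1 ≤ n ∧ n ≤ ⌊T⌋₊ ∧ ∃ (u : ℤ) (L : ℕ),
          1 ≤ |a| * Real.exp n * (b : ℝ) ^ u ∧ δ / 2 * (⌊T⌋₊ : ℝ) ≤ L ∧ (u : ℝ) + L ≤ (⌊T⌋₊ : ℝ) / (δ / 2) ∧
          (complexity b (a * Real.exp n + P.eval (n : ℝ)) u L : ℝ) ≤
            (δ / 2) ^ 2 / (50000 * 2 ^ D) * L} = ∅ := by
        ext n
        simp only [Set.mem_setOf_eq, Set.mem_empty_iff_false, iff_false]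
        exact fun hn => hlog hn.1
      rw [hemp, Set.ncard_empty]
      push_cast
      positivity

/-- **All exponents of windows.** Let `v ≥ 1` be a sequence of exponent of convergence at most `τ ≥ 0`, `θ < 1` and
`0 < δ ≤ 1`.
(1) Let `r ≥ 0`, `κ = (δ / (r + 2))² / 5000`, and let `(t_i, ξ_i)`, `i ∈ ℕ`, be a sequence in `ℝ ^ r × ℝ` with `ξ_i ≠ 0`. For
all `α > 0` outside a set of Hausdorff dimension at most `(1 - κ + τ) / (1 - θ)`, for all `i` and all large `k`, for **every**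
integer `n` with `|n - α v_k| ≤ v_k ^ θ` and all integers `a, b, c_1, …, c_r` with `b ≠ 0` and `|b|, |c_l| ≤ e^(κ n)` we have
`|a + b ξ e^n + c_1 t_1 + … + c_r t_r| ≥ e^(-δ n)`.
(2) Let `b ≥ 2`, `D ≥ 0`, `κ = δ⁴ / (209715200 · 2^D)`, and let `(a_i, P_i)`, `i ∈ ℕ`, be a sequence of nonzero real numbers and
real polynomials of degree at most `D`. For all `α > 0` outside a set of Hausdorff dimension at most
`(1 - κ + τ) / (1 - θ)`, for all `i` and all large `k`, for **every** integer `n` with `|n - α v_k| ≤ v_k ^ θ`, every block of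
`L ≥ δ n` consecutive digits of `a_i e^n + P_i(n)` in base `b` between the leading digit and the digit at the place `n / δ`
after the point has linear complexity greater than `δ² / (200000 · 2^D) · L`.
(3) The sequences `v_k = (k + 1) ^ c` and `v_k = c ^ k` have exponent of convergence at most `1 / c` and `0`. -/
theorem result :
    (∀ (v : ℕ → ℝ) (τ θ δ : ℝ), (∀ k, 1 ≤ v k) → 0 ≤ τ → ExpLe v τ → θ < 1 → 0 < δ → δ ≤ 1 →
      (∀ (r : ℕ) (t : ℕ → Fin r → ℝ) (ξ : ℕ → ℝ), (∀ i, ξ i ≠ 0) →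
        ∃ E : Set ℝ, dimH E ≤ ENNReal.ofReal ((1 - (δ / (r + 2)) ^ 2 / 5000 + τ) / (1 - θ)) ∧
          ∀ α : ℝ, 0 < α → α ∉ E → ∀ i : ℕ, ∃ k₀ : ℕ, ∀ k : ℕ, k₀ ≤ k → ∀ n : ℕ, |(n : ℝ) - α * v k| ≤ (v k) ^ θ →
            ∀ (a b : ℤ) (c : Fin r → ℤ), b ≠ 0 → |(b : ℝ)| ≤ Real.exp ((δ / (r + 2)) ^ 2 / 5000 * n) →
              (∀ l, |(c l : ℝ)| ≤ Real.exp ((δ / (r + 2)) ^ 2 / 5000 * n)) →
              Real.exp (-(δ * n)) ≤ |a + b * (ξ i * Real.exp n) + ∑ l, c l * t i l|) ∧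
      (∀ (b D : ℕ) (a : ℕ → ℝ) (P : ℕ → Polynomial ℝ), 2 ≤ b → (∀ i, a i ≠ 0) → (∀ i, (P i).natDegree ≤ D) →
        ∃ E : Set ℝ, dimH E ≤ ENNReal.ofReal ((1 - δ ^ 4 / (209715200 * 2 ^ D) + τ) / (1 - θ)) ∧
          ∀ α : ℝ, 0 < α → α ∉ E → ∀ i : ℕ, ∃ k₀ : ℕ, ∀ k : ℕ, k₀ ≤ k → ∀ n : ℕ, |(n : ℝ) - α * v k| ≤ (v k) ^ θ →
            ∀ (u : ℤ) (L : ℕ), 1 ≤ |a i| * Real.exp n * (b : ℝ) ^ u → δ * n ≤ L → (u : ℝ) + L ≤ n / δ →
              δ ^ 2 / (200000 * 2 ^ D) * L < (complexity b (a i * Real.exp n + (P i).eval (n : ℝ)) u L : ℝ))) ∧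
    (∀ c : ℝ, 0 < c → ExpLe (fun k : ℕ => ((k : ℝ) + 1) ^ c) (1 / c)) ∧
    (∀ c : ℝ, 1 < c → ExpLe (fun k : ℕ => c ^ k) 0) := by
  classical
  refine ⟨fun v τ θ δ hv hτ hE hθ hδ hδ1 => ⟨fun r t ξ hξ => ?_, fun b D a P hb ha hP => ?_⟩,
    fun c hc => Pool.Agent.Y854.GM.expLe_pow c hc, fun c hc => Pool.Agent.Y854.GM.expLe_geom c hc⟩
  · have hs : 0 ≤ 1 - (δ / ((r : ℝ) + 2)) ^ 2 / 5000 := by
      have h4 : δ / ((r : ℝ) + 2) ≤ 1 := by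
        rw [div_le_one (by positivity)]
        have : (0 : ℝ) ≤ r := Nat.cast_nonneg r
        linarith
      have h5 : 0 ≤ δ / ((r : ℝ) + 2) := by positivity
      nlinarith
    have hall : ∀ i : ℕ, ∃ E : Set ℝ, dimH E ≤ ENNReal.ofReal ((1 - (δ / (r + 2)) ^ 2 / 5000 + τ) / (1 - θ)) ∧
        ∀ α : ℝ, 0 < α → α ∉ E → ∃ k₀ : ℕ, ∀ k : ℕ, k₀ ≤ k → ∀ n : ℕ, |(n : ℝ) - α * v k| ≤ (v k) ^ θ →
          0 < n ∧ n ∉ {n : ℕ | SmallForm (t i) (ξ i) δ n} := by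
      intro i
      refine Pool.Agent.Y854.GM.win_nat {n : ℕ | SmallForm (t i) (ξ i) δ n} (θ := θ) hv hτ hE hs hθ
        (fun ε hε => ?_)
      obtain ⟨C, hC⟩ := count_form (t i) (ξ i) δ hδ hδ1 (hξ i) ε hε
      refine ⟨C, fun X hX => ?_⟩
      convert hC X hX using 3
    choose E hE1 hE2 using hall
    refine ⟨⋃ i, E i, ?_, fun α hα hαE i => ?_⟩
    · rw [dimH_iUnion]
      exact iSup_le hE1
    · obtain ⟨k₀, hk⟩ := hE2 i α hα (fun h => hαE (Set.mem_iUnion.2 ⟨i, h⟩))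
      refine ⟨k₀, fun k hkk n hn a b c hb h1 h2 => ?_⟩
      by_contra hcon
      exact (hk k hkk n hn).2 ⟨a, b, c, hb, h1, h2, not_le.1 hcon⟩
  · have hs : 0 ≤ 1 - δ ^ 4 / (209715200 * 2 ^ D) := by
      have h2D : (1 : ℝ) ≤ 2 ^ D := one_le_pow₀ (by norm_num)
      have h1 : δ ^ 4 ≤ 1 := pow_le_one₀ hδ.le hδ1
      have h2 : δ ^ 4 / (209715200 * 2 ^ D) ≤ 1 := by
        rw [div_le_one (by positivity)]
        nlinarith
      linarith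
    have hall : ∀ i : ℕ, ∃ E : Set ℝ, dimH E ≤ ENNReal.ofReal ((1 - δ ^ 4 / (209715200 * 2 ^ D) + τ) / (1 - θ)) ∧
        ∀ α : ℝ, 0 < α → α ∉ E → ∃ k₀ : ℕ, ∀ k : ℕ, k₀ ≤ k → ∀ n : ℕ, |(n : ℝ) - α * v k| ≤ (v k) ^ θ →
          0 < n ∧ n ∉ {n : ℕ | 1 ≤ n ∧ SimpleBlock b D δ (a i) (P i) n} := by
      intro i
      refine Pool.Agent.Y854.GM.win_nat {n : ℕ | 1 ≤ n ∧ SimpleBlock b D δ (a i) (P i) n} (θ := θ) hv hτ hE hs hθ
        (fun ε hε => ?_)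
      obtain ⟨C, hC⟩ := count_block b D hb δ (a i) (P i) hδ hδ1 (ha i) (hP i)
      refine ⟨|C|, fun X hX => ?_⟩
      have hX1 : (1 : ℝ) ≤ X := by exact_mod_cast hX
      obtain ⟨h1, h2⟩ := hC X hX1
      have h3 : (((Ioc 0 X).filter (fun n => n ∈ {n : ℕ | 1 ≤ n ∧ SimpleBlock b D δ (a i) (P i) n}) : Finset ℕ) :
          Set ℕ) ⊆ {n : ℕ | n ∈ {n : ℕ | 1 ≤ n ∧ SimpleBlock b D δ (a i) (P i) n} ∧ (n : ℝ) ≤ X} := by
        intro n hn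
        rw [mem_coe, mem_filter, mem_Ioc] at hn
        exact ⟨hn.2, by exact_mod_cast hn.1.2⟩
      have h4 := Set.ncard_le_ncard h3 h1
      rw [Set.ncard_coe_finset] at h4
      have h5 : (((Ioc 0 X).filter (fun n => n ∈ {n : ℕ | 1 ≤ n ∧ SimpleBlock b D δ (a i) (P i) n})).card : ℝ) ≤
          ({n : ℕ | n ∈ {n : ℕ | 1 ≤ n ∧ SimpleBlock b D δ (a i) (P i) n} ∧ (n : ℝ) ≤ X}.ncard : ℝ) := by
        exact_mod_cast h4
      have h6 : (X : ℝ) ^ (1 - δ ^ 4 / (209715200 * 2 ^ D)) ≤ (X : ℝ) ^ (1 - δ ^ 4 / (209715200 * 2 ^ D) + ε) :=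
        Real.rpow_le_rpow_of_exponent_le hX1 (by linarith)
      have h7 : 0 ≤ (X : ℝ) ^ (1 - δ ^ 4 / (209715200 * 2 ^ D)) := by positivity
      have h8 : (((Ioc 0 X).filter (fun n => n ∈ {n : ℕ | 1 ≤ n ∧ SimpleBlock b D δ (a i) (P i) n})).card : ℝ) ≤
          |C| * (X : ℝ) ^ (1 - δ ^ 4 / (209715200 * 2 ^ D) + ε) :=
        calc _ ≤ _ := h5
          _ ≤ C * (X : ℝ) ^ (1 - δ ^ 4 / (209715200 * 2 ^ D)) := h2
          _ ≤ |C| * (X : ℝ) ^ (1 - δ ^ 4 / (209715200 * 2 ^ D)) := mul_le_mul_of_nonneg_right (le_abs_self C) h7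
          _ ≤ _ := mul_le_mul_of_nonneg_left h6 (abs_nonneg C)
      convert h8 using 3
      ext t
      simp only [Finset.mem_filter]
    choose E hE1 hE2 using hall
    refine ⟨⋃ i, E i, ?_, fun α hα hαE i => ?_⟩
    · rw [dimH_iUnion]
      exact iSup_le hE1
    · obtain ⟨k₀, hk⟩ := hE2 i α hα (fun h => hαE (Set.mem_iUnion.2 ⟨i, h⟩))
      refine ⟨k₀, fun k hkk n hn u L h1 h2 h3 => ?_⟩
      by_contra hcon
      obtain ⟨hn0, hn1⟩ := hk k hkk n hn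
      exact hn1 ⟨hn0, u, L, h1, h2, h3, not_lt.1 hcon⟩

end Pool.Agent.Results.MP_9056e9_nt.AllExponentsInWindows
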