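import Pool.Agent.Results.MP_9056e9_nt.AllExponentsInWindows
import Pool.Agent.H223.PS.Both

/-!
# The powers of `e`: all exponents in the residue classes of almost every `p`-adic integer

The starting results bound the number of exceptional exponents `n ≤ N` by `N ^ (1 - κ)`; here we show that for every prime `p`
and `σ > 1 - κ`, for almost all `p`-adic integers `α` (all outside of a set of Hausdorff dimension at most `(1 - κ) / σ`), there
are **no** exceptional exponents `1 ≤ n ≤ T` with `|n - α|_p ≤ T ^ (-σ)` for all large `T`, that is, in the residue class of `α`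
modulo the power of `p` of order `T ^ σ` (about `T ^ (1 - σ)` exponents):

* (linear forms) `|a + b ξ e^n + c_1 t_1 + … + c_r t_r| ≥ e^(-δ n)` for all integers `a`, `b ≠ 0`, `c_i` with
  `|b|, |c_i| ≤ e^(κ n)`, `κ = (δ / (r + 2))² / 5000`; in particular the distance of `b e^n - θ` from the nearest integer is
  at least `e^(-δ n)` for every fixed real `θ`;
* (digits) every block of at least `δ n` consecutive digits of `a e^n + P(n)` in base `b`, between the leading digit and the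
  digit at the place `n / δ` after the point, has linear complexity at least `c` times its length.

The same set of `α` serves for countably many choices of `ξ`, `t` (or `a`, `P`) simultaneously.
-/

set_option autoImplicit false

open Finset

namespace Pool.Agent.Results.MP_9056e9_nt.ExponentsInResidueClasses

open DigitsOfPowersOfE (digit complexity)
open AllExponentsInWindows (SmallForm SimpleBlock count_form count_block)

/-- for all large `T` all integers `1 ≤ n ≤ T` with `|n - α|_p ≤ T ^ (-σ)` have the property `G` -/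
def AllInClasses (p : ℕ) [Fact p.Prime] (σ : ℝ) (α : ℤ_[p]) (G : ℕ → Prop) : Prop :=
  ∃ T₀ : ℝ, ∀ T ≥ T₀, ∀ n : ℕ, 1 ≤ n → (n : ℝ) ≤ T → ‖(n : ℤ_[p]) - α‖ ≤ T ^ (-σ) → G n

/-- **All exponents in residue classes.** Let `p` be a prime, `σ > 0` and `0 < δ ≤ 1`.
(1) Let `r ≥ 0`, `κ = (δ / (r + 2))² / 5000`, and let `(t_i, ξ_i)`, `i ∈ ℕ`, be a sequence in `ℝ ^ r × ℝ` with `ξ_i ≠ 0`. For
all `p`-adic integers `α` outside a set of Hausdorff dimension at most `(1 - κ) / σ`, for all `i` and all large `T`, for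
**every** integer `1 ≤ n ≤ T` with `|n - α|_p ≤ T ^ (-σ)` and all integers `a, b, c_1, …, c_r` with `b ≠ 0` and
`|b|, |c_l| ≤ e^(κ n)` we have `|a + b ξ e^n + c_1 t_1 + … + c_r t_r| ≥ e^(-δ n)`.
(2) Let `b ≥ 2`, `D ≥ 0`, `κ = δ⁴ / (209715200 · 2^D)`, and let `(a_i, P_i)`, `i ∈ ℕ`, be a sequence of nonzero real numbers and
real polynomials of degree at most `D`. For all `p`-adic integers `α` outside a set of Hausdorff dimension at most
`(1 - κ) / σ`, for all `i` and all large `T`, for **every** integer `1 ≤ n ≤ T` with `|n - α|_p ≤ T ^ (-σ)`, every block of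
`L ≥ δ n` consecutive digits of `a_i e^n + P_i(n)` in base `b` between the leading digit and the digit at the place `n / δ`
after the point has linear complexity greater than `δ² / (200000 · 2^D) · L`. -/
theorem result (p : ℕ) [Fact p.Prime] (σ δ : ℝ) (hσ : 0 < σ) (hδ : 0 < δ) (hδ1 : δ ≤ 1) :
    (∀ (r : ℕ) (t : ℕ → Fin r → ℝ) (ξ : ℕ → ℝ), (∀ i, ξ i ≠ 0) →
      ∃ E : Set ℤ_[p], dimH E ≤ ENNReal.ofReal ((1 - (δ / (r + 2)) ^ 2 / 5000) / σ) ∧ ∀ α ∉ E, ∀ i : ℕ,
        AllInClasses p σ α fun n =>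
          ∀ (a b : ℤ) (c : Fin r → ℤ), b ≠ 0 → |(b : ℝ)| ≤ Real.exp ((δ / (r + 2)) ^ 2 / 5000 * n) →
            (∀ l, |(c l : ℝ)| ≤ Real.exp ((δ / (r + 2)) ^ 2 / 5000 * n)) →
            Real.exp (-(δ * n)) ≤ |a + b * (ξ i * Real.exp n) + ∑ l, c l * t i l|) ∧
    (∀ (b D : ℕ) (a : ℕ → ℝ) (P : ℕ → Polynomial ℝ), 2 ≤ b → (∀ i, a i ≠ 0) → (∀ i, (P i).natDegree ≤ D) →
      ∃ E : Set ℤ_[p], dimH E ≤ ENNReal.ofReal ((1 - δ ^ 4 / (209715200 * 2 ^ D)) / σ) ∧ ∀ α ∉ E, ∀ i : ℕ,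
        AllInClasses p σ α fun n =>
          ∀ (u : ℤ) (L : ℕ), 1 ≤ |a i| * Real.exp n * (b : ℝ) ^ u → δ * n ≤ L → (u : ℝ) + L ≤ n / δ →
            δ ^ 2 / (200000 * 2 ^ D) * L < (complexity b (a i * Real.exp n + (P i).eval (n : ℝ)) u L : ℝ)) := by
  classical
  refine ⟨fun r t ξ hξ => ?_, fun b D a P hb ha hP => ?_⟩
  · have hs : 0 ≤ 1 - (δ / ((r : ℝ) + 2)) ^ 2 / 5000 := by
      have h4 : δ / ((r : ℝ) + 2) ≤ 1 := by
        rw [div_le_one (by positivity)]
        have : (0 : ℝ) ≤ r := Nat.cast_nonneg r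
        linarith
      have h5 : 0 ≤ δ / ((r : ℝ) + 2) := by positivity
      nlinarith
    obtain ⟨g1, -⟩ := Pool.Agent.H223.PS.both (fun i => {n : ℕ | SmallForm (t i) (ξ i) δ n}) hs (fun i ε hε => by
      obtain ⟨C, hC⟩ := count_form (t i) (ξ i) δ hδ hδ1 (hξ i) ε hε
      refine ⟨C, fun X hX => ?_⟩
      convert hC X hX using 3)
    obtain ⟨E, e1, e2⟩ := g1 p σ hσ
    refine ⟨E, e1, fun α hα i => ?_⟩
    obtain ⟨T₀, hT₀⟩ := e2 α hα i
    refine ⟨T₀, fun T hT n _ hnT hn a b c hb h1 h2 => ?_⟩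
    by_contra hcon
    exact hT₀ T hT n hnT hn ⟨a, b, c, hb, h1, h2, not_le.1 hcon⟩
  · have hs : 0 ≤ 1 - δ ^ 4 / (209715200 * 2 ^ D) := by
      have h2D : (1 : ℝ) ≤ 2 ^ D := one_le_pow₀ (by norm_num)
      have h1 : δ ^ 4 ≤ 1 := pow_le_one₀ hδ.le hδ1
      have h2 : δ ^ 4 / (209715200 * 2 ^ D) ≤ 1 := by
        rw [div_le_one (by positivity)]
        nlinarith
      linarith
    obtain ⟨E, e1, e2⟩ := Pool.Agent.H223.PS.padic_nat p
      (fun i => {n : ℕ | 1 ≤ n ∧ SimpleBlock b D δ (a i) (P i) n}) hs (fun i ε hε => by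
      obtain ⟨C, hC⟩ := count_block b D hb δ (a i) (P i) hδ hδ1 (ha i) (hP i)
      refine ⟨|C|, fun X hX => ?_⟩
      obtain ⟨h1, h2⟩ := hC X hX
      refine ⟨h1, ?_⟩
      have h6 : X ^ (1 - δ ^ 4 / (209715200 * 2 ^ D)) ≤ X ^ (1 - δ ^ 4 / (209715200 * 2 ^ D) + ε) :=
        Real.rpow_le_rpow_of_exponent_le hX (by linarith)
      have h7 : 0 ≤ X ^ (1 - δ ^ 4 / (209715200 * 2 ^ D)) := Real.rpow_nonneg (by linarith) _
      calc _ ≤ C * X ^ (1 - δ ^ 4 / (209715200 * 2 ^ D)) := h2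
        _ ≤ |C| * X ^ (1 - δ ^ 4 / (209715200 * 2 ^ D)) := mul_le_mul_of_nonneg_right (le_abs_self C) h7
        _ ≤ _ := mul_le_mul_of_nonneg_left h6 (abs_nonneg C)) hσ
    refine ⟨E, e1, fun α hα i => ?_⟩
    obtain ⟨T₀, hT₀⟩ := e2 α hα i
    refine ⟨T₀, fun T hT n hn1 hnT hn u L h1 h2 h3 => ?_⟩
    by_contra hcon
    exact hT₀ T hT n hnT hn ⟨hn1, u, L, h1, h2, h3, not_lt.1 hcon⟩

end Pool.Agent.Results.MP_9056e9_nt.ExponentsInResidueClasses
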