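import Pool.Agent.Results.MP_9056e9_nt.AllExponentsInWindows
import Pool.Agent.V11001.KM.NatSet

/-!
# The numbers `e^n` for ALL exponents `n` near the powers of almost every real number

Let `ν k / log k → ∞`, for example `ν k = k` or `ν k = k !`, `θ < 1` and `0 < δ ≤ 1`. For all real `z > 1` outside a set of
Hausdorff dimension less than `(1 - κ) / (1 - θ)`, EVERY large integer `n` with `|n - β z ^ (ν k)| ≤ z ^ (θ ν k)` for some
`k` has the following properties: `e^n ξ` is not close to a rational number of small denominator, or to small combinations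
of given numbers; and no long block of digits of `a e^n + P(n)` has small linear complexity.
-/

set_option autoImplicit false

namespace Pool.Agent.Results.MP_9056e9_nt.ExponentsNearPowers

open Finset Filter Topology
open Pool.Agent.Results.MP_9056e9_nt.DigitsOfPowersOfE (complexity)
open AllExponentsInWindows (SmallForm SimpleBlock count_form count_block)
open Pool.Agent.V11001.KM

/-- **All exponents near powers.** Let `ν k / log k → ∞`, let `U` be a countable set of real numbers, `θ < 1` and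
`0 < δ ≤ 1`.
(1) Let `r ≥ 0`, `κ = (δ / (r + 2))² / 5000`, and let `(t_i, ξ_i)`, `i ∈ ℕ`, be a sequence in `ℝ ^ r × ℝ` with `ξ_i ≠ 0`. For
all `z > 1` outside a set of Hausdorff dimension at most `(1 - κ) / (1 - θ)`, for all `i`, all positive `β` in `U` and
**every** large integer `n` with `|n - β z ^ (ν k)| ≤ z ^ (θ ν k)` for some `k`, and all integers `a, b, c_1, …, c_r` with
`b ≠ 0` and `|b|, |c_l| ≤ e^(κ n)` we have `|a + b ξ e^n + c_1 t_1 + … + c_r t_r| ≥ e^(-δ n)`.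
(2) Let `b ≥ 2`, `D ≥ 0`, `κ = δ⁴ / (209715200 · 2^D)`, and let `(a_i, P_i)`, `i ∈ ℕ`, be a sequence of nonzero real numbers and
real polynomials of degree at most `D`. For all `z > 1` outside a set of Hausdorff dimension at most
`(1 - κ) / (1 - θ)`, for all `i`, all positive `β` in `U` and **every** large such `n`, every block of
`L ≥ δ n` consecutive digits of `a_i e^n + P_i(n)` in base `b` between the leading digit and the digit at the place `n / δ`
after the point has linear complexity greater than `δ² / (200000 · 2^D) · L`. -/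
theorem result (ν : ℕ → ℝ) (hν : Fast ν) (U : Set ℝ) (hU : U.Countable) (θ δ : ℝ) (hθ : θ < 1) (hδ : 0 < δ)
    (hδ1 : δ ≤ 1) :
    (∀ (r : ℕ) (t : ℕ → Fin r → ℝ) (ξ : ℕ → ℝ), (∀ i, ξ i ≠ 0) →
      ∃ E : Set ℝ, dimH E ≤ ENNReal.ofReal ((1 - (δ / (r + 2)) ^ 2 / 5000) / (1 - θ)) ∧
        ∀ z : ℝ, 1 < z → z ∉ E → ∀ i : ℕ, ∀ β ∈ U, 0 < β → ∃ n₀ : ℝ, ∀ n : ℕ, n₀ ≤ n → Near ν θ β z n →
          ∀ (a b : ℤ) (c : Fin r → ℤ), b ≠ 0 → |(b : ℝ)| ≤ Real.exp ((δ / (r + 2)) ^ 2 / 5000 * n) →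
            (∀ l, |(c l : ℝ)| ≤ Real.exp ((δ / (r + 2)) ^ 2 / 5000 * n)) →
            Real.exp (-(δ * n)) ≤ |a + b * (ξ i * Real.exp n) + ∑ l, c l * t i l|) ∧
    (∀ (b D : ℕ) (a : ℕ → ℝ) (P : ℕ → Polynomial ℝ), 2 ≤ b → (∀ i, a i ≠ 0) → (∀ i, (P i).natDegree ≤ D) →
      ∃ E : Set ℝ, dimH E ≤ ENNReal.ofReal ((1 - δ ^ 4 / (209715200 * 2 ^ D)) / (1 - θ)) ∧
        ∀ z : ℝ, 1 < z → z ∉ E → ∀ i : ℕ, ∀ β ∈ U, 0 < β → ∃ n₀ : ℝ, ∀ n : ℕ, n₀ ≤ n → Near ν θ β z n →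
          ∀ (u : ℤ) (L : ℕ), 1 ≤ |a i| * Real.exp n * (b : ℝ) ^ u → δ * n ≤ L → (u : ℝ) + L ≤ n / δ →
            δ ^ 2 / (200000 * 2 ^ D) * L < (complexity b (a i * Real.exp n + (P i).eval (n : ℝ)) u L : ℝ)) := by
  classical
  refine ⟨fun r t ξ hξ => ?_, fun b D a P hb ha hP => ?_⟩
  · have hs : 0 ≤ 1 - (δ / ((r : ℝ) + 2)) ^ 2 / 5000 := by
      have h4 : δ / ((r : ℝ) + 2) ≤ 1 := by
        rw [div_le_one (by positivity)]
        have : (0 : ℝ) ≤ r := Nat.cast_nonneg r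
        linarith
      have h5 : 0 ≤ δ / ((r : ℝ) + 2) := by positivity
      nlinarith
    obtain ⟨E, h1, h2⟩ := family_threshold (fun n : ℕ => (n : ℝ)) hν hs hθ U hU (J := ℕ)
      (fun i => {n : ℕ | SmallForm (t i) (ξ i) δ n}) (fun i ε hε => count_of_nat _ hs hε (by
        obtain ⟨C, hC⟩ := count_form (t i) (ξ i) δ hδ hδ1 (hξ i) ε hε
        refine ⟨C, fun X hX => le_trans (le_of_eq ?_) (hC X hX)⟩
        congr!))
    refine ⟨E, h1, fun z hz hzE i β hβ hβ0 => ?_⟩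
    obtain ⟨n₀, h3⟩ := h2 z hz hzE β hβ hβ0 i
    refine ⟨n₀, fun n hn hnear a b c hb g1 g2 => ?_⟩
    by_contra hcon
    exact absurd (h3 n ⟨a, b, c, hb, g1, g2, not_le.1 hcon⟩ hnear) (not_lt.2 hn)
  · have hs : 0 ≤ 1 - δ ^ 4 / (209715200 * 2 ^ D) := by
      have h2D : (1 : ℝ) ≤ 2 ^ D := one_le_pow₀ (by norm_num)
      have h1 : δ ^ 4 ≤ 1 := pow_le_one₀ hδ.le hδ1
      have h2 : δ ^ 4 / (209715200 * 2 ^ D) ≤ 1 := by
        rw [div_le_one (by positivity)]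
        nlinarith
      linarith
    obtain ⟨E, h1, h2⟩ := family_threshold (fun n : ℕ => (n : ℝ)) hν hs hθ U hU (J := ℕ)
      (fun i => {n : ℕ | 1 ≤ n ∧ SimpleBlock b D δ (a i) (P i) n}) (fun i ε hε => by
        obtain ⟨C, hC⟩ := count_block b D hb δ (a i) (P i) hδ hδ1 (ha i) (hP i)
        refine ⟨|C|, fun X hX => ⟨(hC X hX).1, (hC X hX).2.trans ?_⟩⟩
        have h6 : X ^ (1 - δ ^ 4 / (209715200 * 2 ^ D)) ≤ X ^ (1 - δ ^ 4 / (209715200 * 2 ^ D) + ε) :=
          Real.rpow_le_rpow_of_exponent_le hX (by linarith)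
        have h7 : 0 ≤ X ^ (1 - δ ^ 4 / (209715200 * 2 ^ D)) := Real.rpow_nonneg (by linarith) _
        exact mul_le_mul (le_abs_self C) h6 h7 (abs_nonneg C))
    refine ⟨E, h1, fun z hz hzE i β hβ hβ0 => ?_⟩
    obtain ⟨n₀, h3⟩ := h2 z hz hzE β hβ hβ0 i
    refine ⟨max n₀ 1, fun n hn hnear u L g1 g2 g3 => ?_⟩
    by_contra hcon
    have hn1 : 1 ≤ n := by exact_mod_cast (le_max_right n₀ 1).trans hn
    exact absurd (h3 n ⟨hn1, u, L, g1, g2, g3, not_lt.1 hcon⟩ hnear) (not_lt.2 ((le_max_left _ _).trans hn))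

end Pool.Agent.Results.MP_9056e9_nt.ExponentsNearPowers
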